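import Mathlib
import Pool.Agent.H54.AV.Finh
import Pool.Agent.H54.AV.Pub

set_option autoImplicit false

/-!
# All algebraic numbers: a polynomial in the degree over the division field, times an `ε`-power

All fields are subfields of `AlgebraicClosure ℚ`; subgroups of the multiplicative group are
subgroups of the unit group of `AlgebraicClosure ℚ`.
-/

namespace Pool.Agent.Results.MP_f61260_nt.AllNumbersPolynomialDegree

open Pool.Agent.H58P (Qb ht)
open Pool.Agent.W237.RK

/-- `β` lies in the division group of `Γ`: a positive power of `β` is an element of `Γ` -/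
def InDivisionGroup (Γ : Subgroup (AlgebraicClosure ℚ)ˣ) (β : AlgebraicClosure ℚ) : Prop :=
  ∃ n : ℕ, 0 < n ∧ ∃ g ∈ Γ, β ^ n = (g : AlgebraicClosure ℚ)

/-- `D_Γ(α)`: the degree of `α` over the field `ℚ(Γ_div)` generated by the division group of `Γ` -/
noncomputable def divisionDegree (Γ : Subgroup (AlgebraicClosure ℚ)ˣ)
    (α : AlgebraicClosure ℚ) : ℕ :=
  (minpoly (IntermediateField.adjoin ℚ {β : AlgebraicClosure ℚ | InDivisionGroup Γ β}) α).natDegree

/-- the field generated by all roots of unity and by all `n`-th roots of all elements of `Γ`, for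
all positive integers `n` all of whose prime factors belong to `P` -/
noncomputable def smoothRootField (Γ : Subgroup (AlgebraicClosure ℚ)ˣ) (P : Finset ℕ) :
    IntermediateField ℚ (AlgebraicClosure ℚ) :=
  IntermediateField.adjoin ℚ
    ({y | ∃ n : ℕ, 0 < n ∧ y ^ n = 1} ∪
      {y | ∃ n : ℕ, (0 < n ∧ ∀ q : ℕ, q.Prime → q ∣ n → q ∈ P) ∧
        ∃ g ∈ Γ, y ^ n = (g : AlgebraicClosure ℚ)})

/-- **All algebraic numbers: polynomial dependence on the degree over the division field.**
Let `Γ` be a finitely generated subgroup of `ℚ̄*`, `P` a finite set of primes and `0 < ε ≤ 1`. There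
is a constant `c > 0`, depending only on `Γ`, `P` and `ε`, such that for every algebraic number
`α ≠ 0` outside the division group of `Γ`, every element `γ` of the division group (for example
`γ = 1`) and every `m ≥ 1`, the absolute logarithmic Weil height of `α / γ` is at least
`c / (D_Γ(α) ^ A * D_P(α ^ m) ^ ε)` with the exponent `A = 2 ⌊1 / ε⌋ + 4`, where `D_Γ(x)` is the
degree of `x` over the field `ℚ(Γ_div)` generated by the division group and `D_P(x)` is the degree
of `x` over `ℚ(μ_∞, Γ^{1/n} : n a product of primes of P)`. -/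
theorem result (Γ : Subgroup (AlgebraicClosure ℚ)ˣ) (hΓ : Γ.FG) (P : Finset ℕ)
    (ε : ℝ) (hε : 0 < ε) (hε1 : ε ≤ 1) :
    ∃ c : ℝ, 0 < c ∧ ∀ α : AlgebraicClosure ℚ, α ≠ 0 → ¬ InDivisionGroup Γ α →
      ∀ γ : AlgebraicClosure ℚ, InDivisionGroup Γ γ → ∀ m : ℕ, 0 < m →
        c / ((divisionDegree Γ α : ℝ) ^ (2 * ⌊1 / ε⌋₊ + 4) *
            ((minpoly (smoothRootField Γ P) (α ^ m)).natDegree : ℝ) ^ ε) ≤
          NumberField.absLogHeight₁ (α / γ) := by
  obtain ⟨c, hc, hmain⟩ := Pool.Agent.H54.AV.mainh' (Pool.Agent.H54.AV.gF Γ) Γ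
    (Pool.Agent.H54.AV.gF_fd Γ hΓ) hΓ (Pool.Agent.H54.AV.mem_gF Γ) (P.filter Nat.Prime)
    (fun p hp => (Finset.mem_filter.1 hp).2) ε hε hε1
  rw [Pool.Agent.H54.AV.divF_gF, Pool.Agent.H54.AV.fullField_gF] at hmain
  refine ⟨c, hc, fun α hα hnd γ hγ m hm => ?_⟩
  rw [Pool.Agent.H58P.absLogHeight₁_eq]
  have h := hmain α hα hnd γ hγ m hm
  rw [orb_ncard, orb_ncard] at h
  exact h

end Pool.Agent.Results.MP_f61260_nt.AllNumbersPolynomialDegree
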