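import Mathlib
import Pool.Agent.H54.AM.Kd
import Pool.Agent.H54.AM.Abl

set_option autoImplicit false

/-!
# The weak form of Rémond's inequality up to the Kummer defect outside `P`

All fields are subfields of `AlgebraicClosure ℚ`; subgroups of the multiplicative group are
subgroups of the unit group of `AlgebraicClosure ℚ`.
-/

namespace Pool.Agent.Results.MP_f61260_nt.KummerDefectWeakForm

open Pool.Agent.H58P (Qb ht)
open Pool.Agent.W237.RK
open Pool.Agent.TH53.RP

/-- `β` lies in the division group of `Γ`: a positive power of `β` is an element of `Γ` -/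
def InDivisionGroup (Γ : Subgroup (AlgebraicClosure ℚ)ˣ) (β : AlgebraicClosure ℚ) : Prop :=
  ∃ n : ℕ, 0 < n ∧ ∃ g ∈ Γ, β ^ n = (g : AlgebraicClosure ℚ)

/-- `D_Γ(α)`: the degree of `α` over the field `ℚ(Γ_div)` generated by the division group of `Γ` -/
noncomputable def divisionDegree (Γ : Subgroup (AlgebraicClosure ℚ)ˣ) (α : AlgebraicClosure ℚ) : ℕ :=
  (minpoly (IntermediateField.adjoin ℚ {β : AlgebraicClosure ℚ | InDivisionGroup Γ β}) α).natDegree

/-- `K(Γ_div)`: the field generated over `K` by the division group of `Γ` -/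
noncomputable def divisionField (K : IntermediateField ℚ (AlgebraicClosure ℚ))
    (Γ : Subgroup (AlgebraicClosure ℚ)ˣ) : IntermediateField K (AlgebraicClosure ℚ) :=
  IntermediateField.adjoin K {β : AlgebraicClosure ℚ | InDivisionGroup Γ β}

/-- the field generated over `K` by all roots of unity and by all `n`-th roots of all elements of
`Γ`, for all positive integers `n` all of whose prime factors belong to `P` -/
noncomputable def smoothRootField (K : IntermediateField ℚ (AlgebraicClosure ℚ))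
    (Γ : Subgroup (AlgebraicClosure ℚ)ˣ) (P : Finset ℕ) :
    IntermediateField K (AlgebraicClosure ℚ) :=
  IntermediateField.adjoin K
    ({y | ∃ n : ℕ, 0 < n ∧ y ^ n = 1} ∪
      {y | ∃ n : ℕ, (0 < n ∧ ∀ q : ℕ, q.Prime → q ∣ n → q ∈ P) ∧
        ∃ g ∈ Γ, y ^ n = (g : AlgebraicClosure ℚ)})

/-- the Kummer defect of `L` outside `P`: the degree of `L ∩ K(Γ_div)` over its intersection with
`smoothRootField K Γ P` (and `0` if this degree is infinite) -/
noncomputable def kummerDefect (K : IntermediateField ℚ (AlgebraicClosure ℚ))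
    (Γ : Subgroup (AlgebraicClosure ℚ)ˣ) (P : Finset ℕ)
    (L : IntermediateField K (AlgebraicClosure ℚ)) : ℕ :=
  IntermediateField.relfinrank (smoothRootField K Γ P) (L ⊓ divisionField K Γ)

/-- `M / K` is of Kummer type at `p`: there is an element `τ` of order `p` of `Gal(M / K)` with
`s τ s⁻¹ = τ ^ c` whenever `s` is the restriction of an automorphism `σ` of `ℚ̄` over `K` with
`σ ζ = ζ ^ c` for all `p`-th roots of unity `ζ` -/
def KummerType (K : IntermediateField ℚ (AlgebraicClosure ℚ))
    (M : IntermediateField K (AlgebraicClosure ℚ)) (p : ℕ) : Prop :=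
  ∃ τ : M ≃ₐ[K] M, orderOf τ = p ∧
    ∀ (σ : AlgebraicClosure ℚ ≃ₐ[K] AlgebraicClosure ℚ) (s : M ≃ₐ[K] M) (c : ℕ),
      (∀ x : M, ((s x : M) : AlgebraicClosure ℚ) = σ x) →
      (∀ ζ : AlgebraicClosure ℚ, ζ ^ p = 1 → σ ζ = ζ ^ c) → s * τ * s⁻¹ = τ ^ c

section

variable (K : IntermediateField ℚ (AlgebraicClosure ℚ)) (Γ : Subgroup (AlgebraicClosure ℚ)ˣ)
  (P : Finset ℕ)

omit K Γ P in
lemma mem_adjoin_iff (K : Pool.Agent.W237.RK.GF) (S : Set Qb) (x : Qb) :
    x ∈ IntermediateField.adjoin K S ↔ x ∈ IntermediateField.adjoin ℚ ((K : Set Qb) ∪ S) := by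
  have hK : K ≤ IntermediateField.adjoin ℚ ((K : Set Qb) ∪ S) := fun y hy =>
    IntermediateField.subset_adjoin _ _ (Or.inl hy)
  constructor
  · intro hx
    have h : IntermediateField.adjoin K S ≤ IntermediateField.extendScalars hK := by
      rw [IntermediateField.adjoin_le_iff]
      intro y hy
      exact IntermediateField.subset_adjoin ℚ ((K : Set Qb) ∪ S) (Or.inr hy)
    exact h hx
  · intro hx
    have h : IntermediateField.adjoin ℚ ((K : Set Qb) ∪ S) ≤
        (IntermediateField.adjoin K S).restrictScalars ℚ := by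
      rw [IntermediateField.adjoin_le_iff]
      rintro y (hy | hy)
      · exact (IntermediateField.adjoin K S).algebraMap_mem ⟨y, hy⟩
      · exact IntermediateField.subset_adjoin K S hy
    exact h hx

lemma mem_divisionField (x : AlgebraicClosure ℚ) :
    x ∈ divisionField K Γ ↔ x ∈ Pool.Agent.Q246.FD.divF K Γ := by
  unfold divisionField
  rw [mem_adjoin_iff]
  rfl

lemma smooth_filter (n : ℕ) : (0 < n ∧ ∀ q : ℕ, q.Prime → q ∣ n → q ∈ P) ↔
    Smooth (P.filter Nat.Prime) n := by
  constructor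
  · rintro ⟨h1, h2⟩
    exact ⟨h1, fun q hq hd => Finset.mem_filter.2 ⟨h2 q hq hd, hq⟩⟩
  · rintro ⟨h1, h2⟩
    exact ⟨h1, fun q hq hd => (Finset.mem_filter.1 (h2 q hq hd)).1⟩

lemma mem_smoothRootField (x : AlgebraicClosure ℚ) :
    x ∈ smoothRootField K Γ P ↔ x ∈ fullField K Γ (P.filter Nat.Prime) := by
  have h : ({y | ∃ n : ℕ, 0 < n ∧ y ^ n = 1} ∪
      {y | ∃ n : ℕ, (0 < n ∧ ∀ q : ℕ, q.Prime → q ∣ n → q ∈ P) ∧
        ∃ g ∈ Γ, y ^ n = (g : AlgebraicClosure ℚ)} : Set (AlgebraicClosure ℚ)) =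
      ({x | Tor x} ∪ {y | ∃ n : ℕ, Smooth (P.filter Nat.Prime) n ∧ ∃ g ∈ Γ, y ^ n = (g : Qb)}) := by
    congr 1
    ext y
    constructor
    · rintro ⟨n, hn, g, hg, h⟩
      exact ⟨n, (smooth_filter P n).1 hn, g, hg, h⟩
    · rintro ⟨n, hn, g, hg, h⟩
      exact ⟨n, (smooth_filter P n).2 hn, g, hg, h⟩
  unfold smoothRootField fullField
  rw [mem_adjoin_iff, h, IntermediateField.adjoin_union, IntermediateField.adjoin_self]

lemma kummerDefect_eq (L : IntermediateField K (AlgebraicClosure ℚ)) :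
    kummerDefect K Γ P L = IntermediateField.relfinrank (fullField K Γ (P.filter Nat.Prime))
      (L.restrictScalars ℚ ⊓ Pool.Agent.Q246.FD.divF K Γ) := by
  have h1 : (smoothRootField K Γ P).toSubfield =
      (fullField K Γ (P.filter Nat.Prime)).toSubfield := by
    ext x
    exact mem_smoothRootField K Γ P x
  have h2 : (L ⊓ divisionField K Γ).toSubfield =
      (L.restrictScalars ℚ ⊓ Pool.Agent.Q246.FD.divF K Γ).toSubfield := by
    ext x
    exact and_congr Iff.rfl (mem_divisionField K Γ x)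
  unfold kummerDefect IntermediateField.relfinrank
  rw [h1, h2]

lemma noKT_of {L : IntermediateField K (AlgebraicClosure ℚ)}
    (hno : ∀ p : ℕ, p.Prime → p ∉ P → ∀ M : IntermediateField K (AlgebraicClosure ℚ), M ≤ L →
      IsGalois K M → ¬ KummerType K M p) :
    Pool.Agent.Q246.FD.NoKT K (L.restrictScalars ℚ) (P.filter Nat.Prime) := by
  intro p hp hpP M hKM hML hMn hKT
  have hn := Pool.Agent.Q246.FD.normal_ext hKM hMn
  refine hno p hp (fun hm => hpP (Finset.mem_filter.2 ⟨hm, hp⟩))
    (IntermediateField.extendScalars hKM) hML ?_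
    (Pool.Agent.Q246.FD.kummerType_of hKM hMn hp hKT)
  exact { to_isSeparable := inferInstance, to_normal := hn }

lemma defect_one (hK : ∀ g ∈ Γ, (g : AlgebraicClosure ℚ) ∈ K)
    (L : IntermediateField K (AlgebraicClosure ℚ)) (hL : IsGalois K L)
    (hno : Pool.Agent.Q246.FD.NoKT K (L.restrictScalars ℚ) (P.filter Nat.Prime)) :
    kummerDefect K Γ P L = 1 := by
  rw [kummerDefect_eq, IntermediateField.relfinrank_eq_one_iff]
  exact Pool.Agent.H54.AM.Kd.inf_le hK _ (Pool.Agent.Q246.FD.le_of L)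
    (Pool.Agent.Q246.FD.normalOver_of L) hno

lemma defect_one_of_roots (hK : ∀ g ∈ Γ, (g : AlgebraicClosure ℚ) ∈ K)
    (L : IntermediateField K (AlgebraicClosure ℚ)) (hL : IsGalois K L)
    (hno : ∀ p : ℕ, p.Prime → p ∉ P → ∀ ζ ∈ L, ¬ IsPrimitiveRoot ζ p) :
    kummerDefect K Γ P L = 1 := by
  refine defect_one K Γ P hK L hL ?_
  intro p hp hpP M hKM hML hMn hKT
  obtain ⟨ζ, hζM, hζ⟩ := Pool.Agent.H54.AM.Kd.root_of_kt hKM hMn hp hKT
  exact hno p hp (fun hm => hpP (Finset.mem_filter.2 ⟨hm, hp⟩)) ζ (hML hζM) hζ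

end

/-- **The weak form of Rémond's inequality up to the Kummer defect.** Let `K` be a number field, `Γ` a
finitely generated subgroup of `K*`, `P` a finite set and `ε > 0`. For a Galois extension `L / K` let
`κ(L)` be the degree of `L ∩ K(Γ_div)` over `L ∩ K(μ_∞, Γ^{1/n} : n a product of primes of P)`.
(1) There is `c > 0` such that for every finite or infinite Galois extension `L` of `K` with finite
`κ = κ(L)`, every `α ≠ 0` in `L` which does not lie in the division group of `Γ`, every `γ` in the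
division group of `Γ` and every `m ≥ 1`, the height of `α / γ` is at least
`c / (κ D_Γ(α) (κ D_Γ(α ^ m)) ^ ε)`; for `m = 1` this is `c / (κ D_Γ(α)) ^ (1 + ε)`.
(2) `κ(L)` is finite if `L / K` is finite, so (1) concerns all algebraic numbers `α` outside the
division group. (3) `κ(L) = 1` if `L` contains no Galois extension of `K` of Kummer type at a prime
outside `P`. (4) In particular `κ(L) = 1` if `L` contains no primitive `p`-th root of unity for the
primes `p` outside `P`, and (5) if `L / K` is finite, the abelianization of `Gal(L / K)` has at most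
`B` elements and `P` is the set of all numbers `≤ B [K : ℚ] + 1`. -/
theorem result (K : IntermediateField ℚ (AlgebraicClosure ℚ)) [FiniteDimensional ℚ K]
    (Γ : Subgroup (AlgebraicClosure ℚ)ˣ) (hΓ : Γ.FG)
    (hK : ∀ g ∈ Γ, (g : AlgebraicClosure ℚ) ∈ K) (P : Finset ℕ) :
    (∀ ε : ℝ, 0 < ε → ∃ c : ℝ, 0 < c ∧
      ∀ L : IntermediateField K (AlgebraicClosure ℚ), IsGalois K L → kummerDefect K Γ P L ≠ 0 →
        ∀ α ∈ L, α ≠ 0 → ¬ InDivisionGroup Γ α →
          ∀ γ : AlgebraicClosure ℚ, InDivisionGroup Γ γ → ∀ m : ℕ, 0 < m →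
            c / (((kummerDefect K Γ P L : ℝ) * (divisionDegree Γ α : ℝ)) *
                ((kummerDefect K Γ P L : ℝ) * (divisionDegree Γ (α ^ m) : ℝ)) ^ ε) ≤
              NumberField.absLogHeight₁ (α / γ)) ∧
    (∀ L : IntermediateField K (AlgebraicClosure ℚ), FiniteDimensional K L →
      kummerDefect K Γ P L ≠ 0) ∧
    (∀ L : IntermediateField K (AlgebraicClosure ℚ), IsGalois K L →
      (∀ p : ℕ, p.Prime → p ∉ P → ∀ M : IntermediateField K (AlgebraicClosure ℚ), M ≤ L →
        IsGalois K M → ¬ KummerType K M p) → kummerDefect K Γ P L = 1) ∧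
    (∀ L : IntermediateField K (AlgebraicClosure ℚ), IsGalois K L →
      (∀ p : ℕ, p.Prime → p ∉ P → ∀ ζ ∈ L, ¬ IsPrimitiveRoot ζ p) →
        kummerDefect K Γ P L = 1) ∧
    (∀ B : ℕ, ∀ L : IntermediateField K (AlgebraicClosure ℚ), FiniteDimensional K L →
      IsGalois K L → Nat.card (Abelianization (L ≃ₐ[K] L)) ≤ B →
        kummerDefect K Γ (Finset.range (B * Module.finrank ℚ K + 2)) L = 1) := by
  classical
  refine ⟨?_, ?_, ?_, ?_, ?_⟩
  · intro ε hε
    obtain ⟨c, hc, hmain⟩ := Pool.Agent.H54.AM.main5' K Γ inferInstance hΓ hK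
      (P.filter Nat.Prime) (fun p hp => (Finset.mem_filter.1 hp).2) ε hε
    refine ⟨c, hc, fun L hL hκ α hα hα0 hnd γ hγ m hm => ?_⟩
    rw [Pool.Agent.H58P.absLogHeight₁_eq]
    have hKL := Pool.Agent.Q246.FD.le_of L
    have hLn : NormalOver K (L.restrictScalars ℚ) := Pool.Agent.Q246.FD.normalOver_of L
    have hκ' := hκ
    rw [kummerDefect_eq] at hκ'
    have hdeg : ∀ x ∈ L.restrictScalars ℚ,
        (orb (fullField K Γ (P.filter Nat.Prime)) x).ncard ≤
          kummerDefect K Γ P L * divisionDegree Γ x := by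
      intro x hx
      have h1 : Pool.Agent.Q246.FD.dvF Γ ≤ Pool.Agent.Q246.FD.divF K Γ := by
        unfold Pool.Agent.Q246.FD.dvF Pool.Agent.Q246.FD.divF
        exact IntermediateField.adjoin.mono _ _ _ Set.subset_union_right
      have h2 : (orb (Pool.Agent.Q246.FD.divF K Γ) x).ncard ≤ divisionDegree Γ x := by
        calc (orb (Pool.Agent.Q246.FD.divF K Γ) x).ncard ≤
              (orb (Pool.Agent.Q246.FD.dvF Γ) x).ncard :=
              Set.ncard_le_ncard (orb_mono h1 x) (orb_finite _ _)
          _ = divisionDegree Γ x := orb_ncard _ _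
      refine le_trans (Pool.Agent.H54.AM.Kd.count hKL (Pool.Agent.Q246.FD.le_divF K Γ) hLn hκ' hx) ?_
      rw [← kummerDefect_eq]
      exact Nat.mul_le_mul le_rfl h2
    have hpos : ∀ x : Qb, 0 < kummerDefect K Γ P L * divisionDegree Γ x := fun x =>
      Nat.mul_pos (Nat.pos_of_ne_zero hκ)
        (minpoly.natDegree_pos (Pool.Agent.H58P.qb_isIntegral x).tower_top)
    have h := hmain _ _ m (hpos α) (hpos (α ^ m)) hm α hα0 (hdeg α hα)
      (hdeg (α ^ m) (pow_mem (show α ∈ L.restrictScalars ℚ from hα) m)) hnd γ hγ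
    push_cast at h
    exact h
  · intro L hL
    unfold kummerDefect
    have h1 : IntermediateField.relfinrank (smoothRootField K Γ P) (L ⊓ divisionField K Γ) ∣
        Module.finrank K ↥(L ⊓ divisionField K Γ) :=
      IntermediateField.relfinrank_dvd_finrank_bot _ _
    have h2 : 0 < Module.finrank K ↥(L ⊓ divisionField K Γ) := by
      have : FiniteDimensional K ↥(L ⊓ divisionField K Γ) :=
        FiniteDimensional.of_injective (IntermediateField.inclusion
          (inf_le_left : L ⊓ divisionField K Γ ≤ L)).toLinearMap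
          (IntermediateField.inclusion_injective inf_le_left)
      exact Module.finrank_pos
    exact (Nat.pos_of_dvd_of_pos h1 h2).ne'
  · intro L hL hno
    exact defect_one K Γ P hK L hL (noKT_of K P hno)
  · intro L hL hno
    exact defect_one_of_roots K Γ P hK L hL hno
  · intro B L hfd hL hB
    refine defect_one_of_roots K Γ _ hK L hL ?_
    intro p hp hpP ζ hζL hζ
    have : NumberField K := { to_charZero := inferInstance, to_finiteDimensional := inferInstance }
    have hζ' : IsPrimitiveRoot (⟨ζ, hζL⟩ : L) p :=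
      IsPrimitiveRoot.of_map_of_injective (f := L.val) hζ L.val.injective
    have h1 := Pool.Agent.H54.AM.Abl.abl (K := K) hp hζ'
    have h2 := Nat.mul_le_mul_right (Module.finrank ℚ K) hB
    apply hpP
    rw [Finset.mem_range]
    omega

end Pool.Agent.Results.MP_f61260_nt.KummerDefectWeakForm
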