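import Mathlib
import Pool.Agent.H54.AV.Finf
import Pool.Agent.H54.AV.Pub

set_option autoImplicit false

/-!
# Rémond's inequality up to an `ε`-power for numbers with norm outside the division group

All fields are subfields of `AlgebraicClosure ℚ`; subgroups of the multiplicative group are
subgroups of the unit group of `AlgebraicClosure ℚ`.
-/

namespace Pool.Agent.Results.MP_f61260_nt.NormOutsideDivisionGroup

open Pool.Agent.H58P (Qb ht)
open Pool.Agent.W237.RK

/-- `β` lies in the division group of `Γ`: a positive power of `β` is an element of `Γ` -/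
def InDivisionGroup (Γ : Subgroup (AlgebraicClosure ℚ)ˣ) (β : AlgebraicClosure ℚ) : Prop :=
  ∃ n : ℕ, 0 < n ∧ ∃ g ∈ Γ, β ^ n = (g : AlgebraicClosure ℚ)

/-- `ℚ(Γ_div)`: the field generated by the division group of `Γ` -/
noncomputable def divisionField (Γ : Subgroup (AlgebraicClosure ℚ)ˣ) :
    IntermediateField ℚ (AlgebraicClosure ℚ) :=
  IntermediateField.adjoin ℚ {β : AlgebraicClosure ℚ | InDivisionGroup Γ β}

/-- `D_Γ(α)`: the degree of `α` over the field `ℚ(Γ_div)` generated by the division group of `Γ` -/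
noncomputable def divisionDegree (Γ : Subgroup (AlgebraicClosure ℚ)ˣ)
    (α : AlgebraicClosure ℚ) : ℕ :=
  (minpoly (divisionField Γ) α).natDegree

/-- `N_Γ(α)`: the norm of `α` from the field `ℚ(Γ_div)(α)` to `ℚ(Γ_div)` -/
noncomputable def divisionNorm (Γ : Subgroup (AlgebraicClosure ℚ)ˣ) (α : AlgebraicClosure ℚ) :
    AlgebraicClosure ℚ :=
  (Algebra.norm (divisionField Γ) (IntermediateField.AdjoinSimple.gen (divisionField Γ) α) :
    divisionField Γ)

/-- the field generated by all roots of unity and by all `n`-th roots of all elements of `Γ`, for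
all positive integers `n` all of whose prime factors belong to `P` -/
noncomputable def smoothRootField (Γ : Subgroup (AlgebraicClosure ℚ)ˣ) (P : Finset ℕ) :
    IntermediateField ℚ (AlgebraicClosure ℚ) :=
  IntermediateField.adjoin ℚ
    ({y | ∃ n : ℕ, 0 < n ∧ y ^ n = 1} ∪
      {y | ∃ n : ℕ, (0 < n ∧ ∀ q : ℕ, q.Prime → q ∣ n → q ∈ P) ∧
        ∃ g ∈ Γ, y ^ n = (g : AlgebraicClosure ℚ)})

lemma norm_eq (Γ : Subgroup Qbˣ) (α : Qb) :
    divisionNorm Γ α = (-1) ^ (minpoly (divisionField Γ) α).natDegree *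
      (((minpoly (divisionField Γ) α).coeff 0 : divisionField Γ) : Qb) := by
  have hint : IsIntegral (divisionField Γ) α := (Pool.Agent.H58P.qb_isIntegral α).tower_top
  have h := Algebra.PowerBasis.norm_gen_eq_coeff_zero_minpoly
    (IntermediateField.adjoin.powerBasis hint)
  unfold divisionNorm
  rw [IntermediateField.adjoin.powerBasis_gen, IntermediateField.adjoin.powerBasis_dim,
    IntermediateField.minpoly_gen] at h
  rw [h]
  push_cast
  rfl

lemma orb_sign (F : GF) (d : ℕ) (x : Qb) : (orb F ((-1) ^ d * x)).ncard = (orb F x).ncard := by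
  have h : orb F ((-1) ^ d * x) = (fun y => (-1) ^ d * y) '' orb F x := by
    ext y
    constructor
    · rintro ⟨τ, hτ, rfl⟩
      exact ⟨τ x, ⟨τ, hτ, rfl⟩, by simp⟩
    · rintro ⟨_, ⟨τ, hτ, rfl⟩, rfl⟩
      exact ⟨τ, hτ, by simp⟩
  rw [h]
  apply Set.ncard_image_of_injective
  intro a b hab
  exact mul_left_cancel₀ (pow_ne_zero d (by norm_num)) hab

/-- **Rémond's inequality up to an `ε`-power of a degree, for all algebraic numbers whose norm to
the division field is outside the division group.** Let `Γ` be a finitely generated subgroup of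
`ℚ̄*`, `P` a finite set of primes and `ε > 0`. There is a constant `c > 0`, depending only on `Γ`,
`P` and `ε`, such that for every algebraic number `α ≠ 0` whose norm `N_Γ(α)` from `ℚ(Γ_div)(α)` to
`ℚ(Γ_div)` is not in the division group, for every element `γ` of the division group (for
example `γ = 1`) and every `m ≥ 1`, the absolute logarithmic Weil height of `α / γ` is at least
`c / (D_Γ(α) * D_P(N_Γ(α) ^ m) ^ ε)`. Here `D_Γ(α)` is the degree of `α` over `ℚ(Γ_div)` and `D_P(x)`
the degree of `x` over `ℚ(μ_∞, Γ^{1/n} : n a product of primes of P)` (so `D_P(N_Γ(α) ^ m)` is at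
most `D_P(α)`). This applies in particular to all the `α ≠ 0` in `ℚ(Γ_div)` outside the division
group, where `N_Γ(α) = α` and `D_Γ(α) = 1`. -/
theorem result (Γ : Subgroup (AlgebraicClosure ℚ)ˣ) (hΓ : Γ.FG) (P : Finset ℕ)
    (ε : ℝ) (hε : 0 < ε) :
    ∃ c : ℝ, 0 < c ∧ ∀ α : AlgebraicClosure ℚ, α ≠ 0 →
      ¬ InDivisionGroup Γ (divisionNorm Γ α) →
        ∀ γ : AlgebraicClosure ℚ, InDivisionGroup Γ γ → ∀ m : ℕ, 0 < m →
          c / ((divisionDegree Γ α : ℝ) *
              ((minpoly (smoothRootField Γ P) (divisionNorm Γ α ^ m)).natDegree : ℝ) ^ ε) ≤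
            NumberField.absLogHeight₁ (α / γ) := by
  obtain ⟨c, hc, hmain⟩ := Pool.Agent.H54.AV.maing' (Pool.Agent.H54.AV.gF Γ) Γ
    (Pool.Agent.H54.AV.gF_fd Γ hΓ) hΓ (Pool.Agent.H54.AV.mem_gF Γ) (P.filter Nat.Prime)
    (fun p hp => (Finset.mem_filter.1 hp).2) ε hε
  rw [Pool.Agent.H54.AV.divF_gF, Pool.Agent.H54.AV.fullField_gF] at hmain
  refine ⟨c, hc, fun α hα hN γ hγ m hm => ?_⟩
  rw [Pool.Agent.H58P.absLogHeight₁_eq]
  have hN' : ¬ DivG Γ (((minpoly (divisionField Γ) α).coeff 0 : divisionField Γ) : Qb) := by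
    intro h
    apply hN
    rw [norm_eq]
    have h1 : DivG Γ ((-1 : Qb) ^ (minpoly (divisionField Γ) α).natDegree) := by
      refine ⟨2, two_pos, 1, one_mem Γ, ?_⟩
      rw [← pow_mul, mul_comm, pow_mul, neg_one_sq, one_pow, Units.val_one]
    exact h1.mul h
  have h := hmain α hα hN' γ hγ m hm
  have h2 := orb_ncard (smoothRootField Γ P) (divisionNorm Γ α ^ m)
  rw [norm_eq, mul_pow, ← pow_mul, orb_sign, pow_mul, ← mul_pow, ← norm_eq] at h2
  rw [orb_ncard] at h
  rw [← h2]
  exact h

end Pool.Agent.Results.MP_f61260_nt.NormOutsideDivisionGroup
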