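import Mathlib
import Pool.Agent.H54.AM.Fin

set_option autoImplicit false

/-!
# The weak form relative to the smooth roots of a finitely generated group

All fields are subfields of `AlgebraicClosure ℚ`; subgroups of the multiplicative group are
subgroups of the unit group of `AlgebraicClosure ℚ`.
-/

namespace Pool.Agent.Results.MP_f61260_nt.SmoothRootsWeakForm

open Pool.Agent.H58P (Qb ht)
open Pool.Agent.W237.RK
open Pool.Agent.TH53.RP

/-- `β` lies in the division group of `Γ`: a positive power of `β` is an element of `Γ` -/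
def InDivisionGroup (Γ : Subgroup (AlgebraicClosure ℚ)ˣ) (β : AlgebraicClosure ℚ) : Prop :=
  ∃ n : ℕ, 0 < n ∧ ∃ g ∈ Γ, β ^ n = (g : AlgebraicClosure ℚ)

/-- the field generated over `K` by all roots of unity and by all `n`-th roots of all elements of
`Γ`, for all positive integers `n` all of whose prime factors belong to `P` -/
noncomputable def smoothRootField (K : IntermediateField ℚ (AlgebraicClosure ℚ))
    (Γ : Subgroup (AlgebraicClosure ℚ)ˣ) (P : Finset ℕ) :
    IntermediateField ℚ (AlgebraicClosure ℚ) :=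
  K ⊔ IntermediateField.adjoin ℚ
    ({y | ∃ n : ℕ, 0 < n ∧ y ^ n = 1} ∪
      {y | ∃ n : ℕ, (0 < n ∧ ∀ q : ℕ, q.Prime → q ∣ n → q ∈ P) ∧
        ∃ g ∈ Γ, y ^ n = (g : AlgebraicClosure ℚ)})

/-- **The weak form (exponent `1 + ε`) relative to the smooth roots of a finitely generated
group.** Let `K` be a number field, `Γ` a finitely generated subgroup of `ℚ̄*`, `P` a finite set of
primes and `ε > 0`. There is a constant `c > 0`, depending only on `K`, `Γ`, `P` and `ε`, such that
for every nonzero algebraic number `α` which does not lie in the division group of `Γ`, every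
element `γ` of the division group of `Γ` (for example `γ = 1`) and every integer `m ≥ 1`, the
absolute logarithmic Weil height of `α / γ` is at least `c / (D(α) * D(α ^ m) ^ ε)`, where
`D(x)` is the degree of `x` over the field `K(μ_∞, Γ^{1/n} : n a product of primes of P)`. For
`m = 1` the lower bound is `c / D(α) ^ (1 + ε)`. -/
theorem result :
    ∀ (K : IntermediateField ℚ (AlgebraicClosure ℚ)), FiniteDimensional ℚ K →
    ∀ (Γ : Subgroup (AlgebraicClosure ℚ)ˣ), Γ.FG →
    ∀ (P : Finset ℕ), (∀ p ∈ P, p.Prime) → ∀ ε : ℝ, 0 < ε →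
      ∃ c : ℝ, 0 < c ∧ ∀ α : AlgebraicClosure ℚ, α ≠ 0 → ¬ InDivisionGroup Γ α →
        ∀ γ : AlgebraicClosure ℚ, InDivisionGroup Γ γ → ∀ m : ℕ, 0 < m →
          c / (((minpoly (smoothRootField K Γ P) α).natDegree : ℝ) *
              ((minpoly (smoothRootField K Γ P) (α ^ m)).natDegree : ℝ) ^ ε) ≤
            NumberField.absLogHeight₁ (α / γ) := by
  intro K hK Γ hΓ P hP ε hε
  obtain ⟨S, hS⟩ := id hΓ
  set T : Set Qb := (fun u : Qbˣ => (u : Qb)) '' (S : Set Qbˣ) with hT
  have hTf : Finite T := (S.finite_toSet.image _)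
  have hTfd : FiniteDimensional ℚ (IntermediateField.adjoin ℚ T) :=
    IntermediateField.finiteDimensional_adjoin fun x _ => Pool.Agent.H58P.qb_isIntegral x
  set K' : GF := K ⊔ IntermediateField.adjoin ℚ T with hK'
  have hK'fd : FiniteDimensional ℚ K' :=
    IntermediateField.finiteDimensional_sup K (IntermediateField.adjoin ℚ T)
  have hKK' : K ≤ K' := le_sup_left
  have hΓK' : ∀ g ∈ Γ, (g : Qb) ∈ K' := by
    intro g hg
    rw [← hS] at hg
    induction hg using Subgroup.closure_induction with
    | mem x hx =>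
      exact (le_sup_right : IntermediateField.adjoin ℚ T ≤ K')
        (IntermediateField.subset_adjoin _ _ ⟨x, hx, rfl⟩)
    | one => exact one_mem K'
    | mul x y _ _ hx hy => rw [Units.val_mul]; exact mul_mem hx hy
    | inv x _ hx => rw [Units.val_inv_eq_inv_val]; exact inv_mem hx
  obtain ⟨c, hc, hmain⟩ := Pool.Agent.H54.AM.main5' K' Γ hK'fd hΓ hΓK' P hP ε hε
  refine ⟨c, hc, fun α hα hnd γ hγ m hm => ?_⟩
  rw [Pool.Agent.H58P.absLogHeight₁_eq]
  have hle : smoothRootField K Γ P ≤ fullField K' Γ P := by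
    apply sup_le
    · exact hKK'.trans (le_fullField K' Γ P)
    · exact le_sup_right
  have hdeg : ∀ x : Qb, (orb (fullField K' Γ P) x).ncard ≤
      (minpoly (smoothRootField K Γ P) x).natDegree := by
    intro x
    calc (orb (fullField K' Γ P) x).ncard ≤ (orb (smoothRootField K Γ P) x).ncard :=
          Set.ncard_le_ncard (orb_mono hle x) (orb_finite _ _)
      _ = (minpoly (smoothRootField K Γ P) x).natDegree := orb_ncard _ _
  have hpos : ∀ x : Qb, 0 < (minpoly (smoothRootField K Γ P) x).natDegree := fun x =>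
    minpoly.natDegree_pos (Pool.Agent.H58P.qb_isIntegral x).tower_top
  exact hmain _ _ m (hpos α) (hpos (α ^ m)) hm α hα (hdeg α) (hdeg (α ^ m)) hnd γ hγ

end Pool.Agent.Results.MP_f61260_nt.SmoothRootsWeakForm
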